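import Mathlib
import Pool.Agent.TH447.KS.IntFin

/-!
# Project IR: interval orders of width `w` have balance constant at least `1/2 - w ^ (-2/3 + o(1))`

Definitions and the statements `S_...` of the steps (every step may use the others as hypotheses).
`Om r M` is the set of the maps `f : α → {0, …, M - 1}` with `f a ≤ f b` whenever `r a b`; `r` is an
arbitrary relation (no axioms).  All probabilities are for a uniformly random `f ∈ Om r M`.

Overview. `A` = antichain of an interval order.  Given the values outside `A`, the values `f x`,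
`x ∈ A`, are independent and uniform in `[lo x, hi x]`, and `lo`, `hi` are monotone in two linear
orders of `A`.  `8 b³` elements of `A` with comparable `kap` (mean length) are cut into `b` groups of
`8 b²` elements in each of the two orders.  Main point (SIDE, TAIL): the increment of `lo` over (the
first `7 b²` elements of) most groups is at most `(log b)^3 kap / b` outside of an event of
probability `b^(-4)`.  Then two elements of the same cell (= same group in both orders) are both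
outside of the common interval of the cell with probability `(log b)^6 / b²` only, and up to this
error `P(f x < f y) - P(f y < f x)` is `μ y - μ x` (SGN); a cell has `4 b` elements and
`|μ| ≤ (log b)^3/b` there, so two of its `μ`'s differ by `(log b)^3/b²`.
-/

set_option autoImplicit false

open Finset Filter Topology
open scoped Classical

namespace Pool.Agent.V5helper26.IR

section defs

variable {α : Type} [Fintype α]

/-- maps to the grid which respect the relation `r` -/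
noncomputable def Om (r : α → α → Prop) (M : ℕ) : Finset (α → ℕ) :=
  (Fintype.piFinset fun _ => range M).filter fun f => ∀ a b, r a b → f a ≤ f b

/-- largest value below `x` (`0` if there is nothing below `x`) -/
noncomputable def lo (r : α → α → Prop) (f : α → ℕ) (x : α) : ℕ :=
  (univ.filter fun z => r z x).sup f

/-- smallest value above `x` (`M - 1` if there is nothing above `x`) -/
noncomputable def hi (r : α → α → Prop) (M : ℕ) (f : α → ℕ) (x : α) : ℕ :=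
  M - 1 - (univ.filter fun z => r x z).sup fun z => M - 1 - f z

/-- number of possible values at `x` -/
noncomputable def ln (r : α → α → Prop) (M : ℕ) (f : α → ℕ) (x : α) : ℕ :=
  hi r M f x + 1 - lo r f x

/-- probability -/
noncomputable def pr (r : α → α → Prop) (M : ℕ) (p : (α → ℕ) → Prop) : ℝ :=
  (((Om r M).filter p).card : ℝ) / (Om r M).card

/-- expectation -/
noncomputable def ex (r : α → α → Prop) (M : ℕ) (X : (α → ℕ) → ℝ) : ℝ :=
  (∑ f ∈ Om r M, X f) / (Om r M).card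

/-- the mean of the number of possible values at `x` for the relation without `x` -/
noncomputable def kap (r : α → α → Prop) (M : ℕ) (x : α) : ℝ :=
  ((Om r M).card : ℝ) / ((Om r M).filter fun f => f x = lo r f x).card

/-- antichain (irreflexivity included) -/
def Anti (r : α → α → Prop) (A : Finset α) : Prop := ∀ a ∈ A, ∀ b ∈ A, ¬ r a b

/-- the reversed map -/
def rev (M : ℕ) (f : α → ℕ) : α → ℕ := fun z => M - 1 - f z

/-- near one of the two ends of its range -/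
def outT (r : α → α → Prop) (M τ : ℕ) (x : α) (f : α → ℕ) : Prop :=
  f x < lo r f x + τ ∨ hi r M f x < f x + τ

/-- sign of `b - a` -/
noncomputable def sg (a b : ℕ) : ℝ := if a < b then 1 else if b < a then -1 else 0

/-- the value at `x` is in the interval `[lo y0, hi z0]` -/
def inJ (r : α → α → Prop) (M : ℕ) (y0 z0 x : α) (f : α → ℕ) : Prop :=
  lo r f y0 ≤ f x ∧ f x ≤ hi r M f z0

/-- the side of the interval `[lo y0, hi z0]` on which `f x` lies -/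
noncomputable def oo (r : α → α → Prop) (M : ℕ) (y0 z0 x : α) (f : α → ℕ) : ℝ :=
  if hi r M f z0 < f x then 1 else if f x < lo r f y0 then -1 else 0

/-- number of pairs of an `f` and a position of an additional element above `D0`, below `B` and at
least `t` above `D1` -/
noncomputable def NE (r : α → α → Prop) (M : ℕ) (D0 D1 B : Finset α) (hB : B.Nonempty) (t : ℕ) : ℕ :=
  ∑ f ∈ Om r M, (Icc (max (D0.sup f) (D1.sup f + t)) (B.inf' hB f)).card

/-- the logarithmic factor -/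
def Lb (b : ℕ) : ℕ := 22 + 5 * Nat.clog 2 b

/-- `8 b³` pairwise incomparable elements of an interval order with comparable lengths -/
structure Cls (r : α → α → Prop) (M b : ℕ) (κ : ℝ) (C : Finset α) : Prop where
  one_b : 1 ≤ b
  one_M : 1 ≤ M
  anti : Anti r C
  card : C.card = 8 * b ^ 3
  cross : ∀ x ∈ C, ∀ y ∈ C, ∀ z z' : α, r z y → r x z' → r z z'
  nestD : ∀ x ∈ C, ∀ y ∈ C, (∀ z, r z x → r z y) ∨ (∀ z, r z y → r z x)
  nestU : ∀ x ∈ C, ∀ y ∈ C, (∀ z, r x z → r y z) ∨ (∀ z, r y z → r x z)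
  kap : ∀ x ∈ C, κ ≤ kap r M x ∧ kap r M x ≤ 4 * κ
  le_κ : (b : ℝ) ≤ κ

/-- good groups: `j` is the number of the group, which consists of the indices in
`[8 b² j, 8 b² (j + 1))` -/
def GoodG {ι : Type} (S : Finset ι) (N Λ : ℝ) (b : ℕ) (a : ℕ → ι → ℝ) (j : ℕ) : Prop :=
  ∑ f ∈ S, (a (8 * b ^ 2 * (j + 1) - 1) f - a (8 * b ^ 2 * j) f) ≤ 16 * (Λ / b) * N ∧
  ∃ i < b, ∑ f ∈ S, (a (8 * b ^ 2 * j + 7 * b ^ 2 + i * b + (b - 1)) f -
      a (8 * b ^ 2 * j + 7 * b ^ 2 + i * b) f) *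
    (a (8 * b ^ 2 * (j + 1) - 1) f - a (8 * b ^ 2 * j) f) ≤ 16 * (Λ / b) ^ 2 * N

end defs

/-- (NBU), 120 lines.  Submultiplicativity of the tail of `f y - sup_D f` (the grid bottom `0` counts
as an element of `D`).  Proof: as `Pool.Agent.TH263.KS_LC.t_LC` (log-concavity; read and copy this
file).  Code `f` by `F z = f z - f y`, `F none = - f y` on `Option α`.  For `f` with
`sup_D f ≤ f y` and `g` with `sup_D g + (s + t) ≤ f y` the function `(F_f - s) ⊔ F_g` codes an element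
of the set for `s` and `(F_f - s) ⊓ F_g + s = F_f ⊓ (F_g + s)` codes an element of the set for `t`;
then use `Finset.le_card_infs_mul_card_sups` (Ahlswede–Daykin). -/
def S_NBU : Prop := ∀ (α : Type) [Fintype α] (r : α → α → Prop) (M : ℕ) (y : α) (D : Finset α)
  (s t : ℕ),
  ((Om r M).filter fun f => D.sup f ≤ f y).card *
    ((Om r M).filter fun f => D.sup f + (s + t) ≤ f y).card ≤
  ((Om r M).filter fun f => D.sup f + s ≤ f y).card *
    ((Om r M).filter fun f => D.sup f + t ≤ f y).card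

/-- (ABS), 80 lines.  Abstract consequences.  With `N(t) = #{t ≤ v}` and `∑_s N(s) = ∑ (v + 1)`,
`∑_s N(s + t) = ∑ (v + 1 - t)^+ ≥ ∑ (v + 1) - t |S|`: (i) sum the hypothesis over `s`.
(ii) sum over `s` and `t`: `∑_{s,t} N(s+t) = ∑ (v+1)(v+2)/2`.  (iii) induction on `k`:
`|S| N((k+1)T) ≤ N(kT) N(T)`. -/
def S_ABS : Prop := ∀ (ι : Type) (S : Finset ι) (v : ι → ℕ),
  (∀ s t : ℕ, S.card * (S.filter fun i => s + t ≤ v i).card ≤
    (S.filter fun i => s ≤ v i).card * (S.filter fun i => t ≤ v i).card) →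
  (∀ t : ℕ, (∑ i ∈ S, (v i + 1)) * (S.filter fun i => v i < t).card ≤ t * S.card ^ 2) ∧
  (S.card * ∑ i ∈ S, (v i + 1) ^ 2 ≤ 2 * (∑ i ∈ S, (v i + 1)) ^ 2) ∧
  (∀ T : ℕ, 2 * (S.filter fun i => T ≤ v i).card ≤ S.card → ∀ k : ℕ,
    2 ^ k * (S.filter fun i => k * T ≤ v i).card ≤ S.card)

/-- (FIB), 60 lines.  Fibres of `Om r M` over the maps `g` with `g x = lo g x`: bijection
`f ↦ (update f x (lo f x), f x)`.  (For `f ∈ Om r M`: `lo f x ≤ f x ≤ hi f x`, and `lo`, `hi` at `x` do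
not depend on `f x` because `¬ r x x`.) -/
def S_FIB : Prop := ∀ (α : Type) [Fintype α] (r : α → α → Prop) (M : ℕ) (x : α), 1 ≤ M →
  ¬ r x x → ∀ φ : (α → ℕ) → ℝ, ∑ f ∈ Om r M, φ f =
    ∑ g ∈ (Om r M).filter (fun g => g x = lo r g x),
      ∑ u ∈ Icc (lo r g x) (hi r M g x), φ (Function.update g x u)

/-- (VV), 150 lines, uses FIB NBU ABS.  Let `v = f x - lo f x`, `E` the expectation.  NBU with
`y = x`, `D = {z | r z x}` (the condition for `t = 0` always holds) gives the hypothesis of ABS for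
`S = Om r M`.  (i) for `t = 1`: `#{v = 0} ∑ (v + 1) ≤ |Om|²`, that is `E (v + 1) ≤ kap`.  By FIB
`E (v + 1) = E (ln + 1)/2`, and with `W = {g | g x = lo g x}`: `|Om| = ∑_W ln`,
`∑_{Om} ln = ∑_W ln² ≥ |Om|²/|W|`, so `E (v+1) ≥ kap/2`.  The second line is (i), the third (ii).
Fourth: `pr (T ≤ v) ≤ E v / T ≤ kap / T ≤ 1/2`, then (iii).  Last line: in a fibre with
`2 k T ≤ ln` at least half of the values have `k T ≤ v`. -/
def S_VV : Prop := ∀ (α : Type) [Fintype α] (r : α → α → Prop) (M : ℕ) (x : α), 1 ≤ M →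
  ¬ r x x →
  (1 ≤ kap r M x ∧ kap r M x / 2 ≤ ex r M (fun f => (f x : ℝ) - lo r f x + 1) ∧
    ex r M (fun f => (f x : ℝ) - lo r f x + 1) ≤ kap r M x) ∧
  (∀ t : ℕ, pr r M (fun f => f x < lo r f x + t) ≤ 2 * t / kap r M x) ∧
  ex r M (fun f => ((f x : ℝ) - lo r f x + 1) ^ 2) ≤ 2 * kap r M x ^ 2 ∧
  (∀ k T : ℕ, 2 * kap r M x ≤ T →
    pr r M (fun f => lo r f x + k * T ≤ f x) ≤ 1 / 2 ^ k ∧
    pr r M (fun f => 2 * k * T ≤ ln r M f x) ≤ 2 / 2 ^ k)

/-- (DUAL), 100 lines.  The reversed relation: `f ↦ M - 1 - f` is a bijection from `Om r M` to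
`Om` of the reversed relation.  For the last part: `#{f x = lo} = #{f x = hi}` (bijection
`f ↦ update f x (hi f x)`; all fibres of FIB have one element of each kind). -/
def S_DUAL : Prop := ∀ (α : Type) [Fintype α] (r : α → α → Prop) (M : ℕ), 1 ≤ M →
  (∀ p : (α → ℕ) → Prop, pr (fun a b => r b a) M p = pr r M (fun f => p (rev M f))) ∧
  (∀ X : (α → ℕ) → ℝ, ex (fun a b => r b a) M X = ex r M (fun f => X (rev M f))) ∧
  (∀ f ∈ Om r M, ∀ x : α, lo (fun a b => r b a) (rev M f) x = M - 1 - hi r M f x ∧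
    hi (fun a b => r b a) M (rev M f) x = M - 1 - lo r f x ∧
    ln (fun a b => r b a) M (rev M f) x = ln r M f x ∧ lo r f x ≤ f x ∧ f x ≤ hi r M f x ∧
    hi r M f x ≤ M - 1) ∧
  (∀ x : α, ¬ r x x → kap (fun a b => r b a) M x = kap r M x)

/-- (TWO), 250 lines, uses FIB NBU ABS.  Let `W` be the set of the `f ∈ Om` with `f x = lo f x` and
`f y = lo f y`, `Ω_x`, `Ω_y` the sets with only one of the two conditions.  Two applications of FIB
(the ranges at `x` and `y` do not depend on the values at `x` and `y`): `|Ω_x| = ∑_W ln y`,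
`|Ω_y| = ∑_W ln x`, `|Om| = ∑_W (ln x)(ln y)`, and the event has at most `(2 τ)² |W|` elements.  So it
is enough to show `|W| |Om| ≤ 2 |Ω_x| |Ω_y|`; by Cauchy–Schwarz this follows from
`|W| ∑_W (ln x)² ≤ 2 |Ω_y|²` and the same with `x`, `y` exchanged.  Proof of this inequality: the
tail of `v = f x - lo f x` on `Ω_y` is submultiplicative, because `Ω_y` is in bijection (change the
value at `y` to the value at `x`) with `Om r'`, where `r' a b` is
`(r a b ∧ a ≠ y ∧ b ≠ y) ∨ (a = y ∧ b = x) ∨ (a = x ∧ b = y)` (so that `f y = f x`), and NBU applies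
to `Om r'` with `D = {z | r z x}`.  ABS (i) with `t = 1` gives `|W| ∑_{Ω_y} (v + 1) ≤ |Ω_y|²`, and
`∑_{Ω_y} (v + 1) = ∑_W ln (ln + 1)/2 ≥ ∑_W ln²/2`. -/
def S_TWO : Prop := ∀ (α : Type) [Fintype α] (r : α → α → Prop) (M : ℕ) (x y : α), 1 ≤ M →
  x ≠ y → ¬ r x x → ¬ r y y → ¬ r x y → ¬ r y x → ∀ τ : ℕ,
  pr r M (fun f => outT r M τ x f ∧ outT r M τ y f) ≤ 8 * (τ : ℝ) ^ 2 / (kap r M x * kap r M y)

/-- (MIN), 250 lines.  Given the values outside `B`, the numbers `f y - lo f y`, `y ∈ B`, are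
independent and uniform in `[0, ln y)`.  Formally `Om r M` is the disjoint union over the `g ∈ Om`
with `g y = lo g y` for all `y ∈ B` of the products
`Fintype.piFinset (fun z => if z ∈ B then Icc (lo g z) (hi g z) else {g z})`
(`lo`, `hi` at points of `B` do not depend on the values on `B`).  In a fibre with `ψ ≠ 0`, with
`V = inf_{y ∈ B} (f y - lo f y)` and `b = |B|`: `P(v ≤ V) = ∏ (1 - v/ln y)^+ ≤ ((1 - v/Λ)^+)^b ≤
exp (- v b/Λ)`.  With `h = ⌈Λ/b⌉ ≤ 2 Λ/b` it is at most `2^(-k)` for `k h ≤ v`, so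
`E (V + 1)² = ∑_{v ≥ 0} (2 v + 1) P(v ≤ V) ≤ ∑_k h (2 (k + 1) h) 2^(-k) = 8 h² ≤ 32 (Λ/b)²`. -/
def S_MIN : Prop := ∀ (α : Type) [Fintype α] (r : α → α → Prop) (M : ℕ) (B : Finset α)
  (hB : B.Nonempty), 1 ≤ M → Anti r B → ∀ Λ : ℝ, (B.card : ℝ) ≤ Λ →
  ∀ ψ : (α → ℕ) → ℝ, (∀ f ∈ Om r M, 0 ≤ ψ f) →
  (∀ f g : α → ℕ, (∀ z, z ∉ B → f z = g z) → ψ f = ψ g) →
  (∀ f ∈ Om r M, ψ f ≠ 0 → ∀ y ∈ B, (ln r M f y : ℝ) ≤ Λ) →
  ∑ f ∈ Om r M, ψ f * (((B.inf' hB fun y => f y - lo r f y : ℕ) : ℝ) + 1) ^ 2 ≤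
    32 * (Λ / B.card) ^ 2 * ∑ f ∈ Om r M, ψ f

/-- (EXT), 120 lines, uses NBU.  Add an element `none` to `α`, above `D0` and below `B`: relation
`r'` on `Option α` with `r' (some z) (some w) ↔ r z w`, `r' (some z) none ↔ z ∈ D0`,
`r' none (some x) ↔ x ∈ B`.  The maps in `Om r' M` are the pairs `(f, u)`, `f ∈ Om r M`,
`sup_{D0} f ≤ u ≤ inf_B f` (`u < M` is automatic).  NBU with `y = none` and
`D = D1.map some`; for `t = 0` the condition on `D1` is automatic since `D1 ⊆ D0`. -/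
def S_EXT : Prop := ∀ (α : Type) [Fintype α] (r : α → α → Prop) (M : ℕ) (D0 D1 B : Finset α)
  (hB : B.Nonempty), D1 ⊆ D0 → ∀ s t : ℕ,
  NE r M D0 D1 B hB 0 * NE r M D0 D1 B hB (s + t) ≤ NE r M D0 D1 B hB s * NE r M D0 D1 B hB t

/-- (TAIL), 300 lines, uses VV MIN EXT.  The main step.  Let `b = |B|`, `D1 = {z | r z xf}`,
`D0 = {z | r z y0}`, `N(t) = NE r M D0 D1 B hB t`, and for `f ∈ Om`:
`H f = inf_B f - lo y0 ≥ 0`, `V f = inf_{y ∈ B} (f y - lo y) ≤ H f`, `s f = sup_B lo - lo y0`,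
`d f = lo y0 - lo xf`.  Then `H ≤ s + V`, `s + d ≤ Δ`, `N(0) = ∑ (H + 1)`.
(1) `N(0) ≥ |Om| κ/(8 b)`: by VV `pr (V < t) ≤ 2 b t/κ ≤ 1/2` for `t = ⌊κ/(4b)⌋`, and
`∑ (H+1) ≥ (t + 1) #{V ≥ t}`.
(2) `N(T) ≤ |Om| κ/(32 b) ≤ N(0)/2`: the `f` with `¬ G f` contribute at most
`∑_{¬G} (f y0 - lo y0 + 1) ≤ |Om| √(2 (4κ)² pr(¬G)) ≤ |Om| κ/(64 b)` (Cauchy–Schwarz, VV third
line), the `f` with `G f` at most
`∑_G (H+1) 1(H + d ≥ T) ≤ (1/T) ∑_G (H+1)(H+d) ≤ (1/T) ∑_G (s Δ + 2 (V+1) Δ + (V+1)²)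
 ≤ (1/T) |Om| (16 + 2·6·16 + 32) (Λ/b)² = 240 |Om| Λ²/(T b²)`, by the two hypotheses on `Δ` and MIN for
`ψ = 1_G` and `ψ = 1_G Δ` (with Cauchy–Schwarz `∑ ψ (V+1) ≤ 6 (Λ/b) ∑ ψ`), and this is at most
`|Om| κ/(64 b)` by the choice of `T`.
(3) EXT gives `N(k T) ≤ 2^(-k) N(0)`, and `N(0) ≤ ∑ (f y0 - lo y0 + 1) ≤ 4 κ |Om|` by VV.
(4) An `f` with `d ≥ k T` contributes `H + 1` to `N(k T)`.  So for every real `g > 0`:
`pr (d ≥ k T) ≤ pr (V + 1 < g) + 2^(-k) 4 κ/g ≤ 2 b g/κ + 2^(-k) 4 κ/g`.  Take `k = 2 m`,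
`g = κ 2^(-m)`: at most `(2 b + 4) 2^(-m) ≤ 6 b 2^(-m)`. -/
def S_TAIL : Prop := ∀ (α : Type) [Fintype α] (r : α → α → Prop) (M : ℕ) (B : Finset α)
  (y0 xf : α) (κ Λ : ℝ) (G : (α → ℕ) → Prop) (Δ : (α → ℕ) → ℝ) (T : ℕ),
  1 ≤ M → Anti r B → y0 ∈ B → (∀ z, r z xf → r z y0) → (∀ y ∈ B, ∀ z, r z y0 → r z y) →
  0 < κ → (∀ y ∈ B, κ ≤ kap r M y ∧ kap r M y ≤ 4 * κ) → (B.card : ℝ) ≤ Λ →
  (∀ f g : α → ℕ, (∀ z, z ∉ B → f z = g z) → (G f ↔ G g)) →
  (∀ f g : α → ℕ, (∀ z, z ∉ B → f z = g z) → Δ f = Δ g) →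
  (∀ f ∈ Om r M, G f → ∀ y ∈ B, (ln r M f y : ℝ) ≤ Λ) →
  (∀ f ∈ Om r M, ((B.sup (lo r f) : ℕ) : ℝ) - lo r f xf ≤ Δ f) →
  ex r M (fun f => if G f then Δ f else 0) ≤ 16 * (Λ / B.card) →
  ex r M (fun f => if G f then (((B.sup (lo r f) : ℕ) : ℝ) - lo r f y0) * Δ f else 0) ≤
    16 * (Λ / B.card) ^ 2 →
  pr r M (fun f => ¬ G f) ≤ 1 / (2 ^ 18 * (B.card : ℝ) ^ 2) →
  2 ^ 14 * Λ ^ 2 / (B.card * κ) ≤ T →
  ∀ m : ℕ, pr r M (fun f => lo r f xf + 2 * m * T ≤ lo r f y0) ≤ 6 * B.card / 2 ^ m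

/-- (SGN), 150 lines.  If `f x` and `f y` are both in `J = [lo y0, hi z0]`, then exchanging the two
values gives an element of `Om` of the same kind with the opposite sign, so that these `f`
contribute `0`.  If `f x ∈ J`, `f y ∉ J` the sign is `oo y` (and `oo x = 0`), if `f y ∈ J`, `f x ∉ J`
it is `- oo x` (and `oo y = 0`). -/
def S_SGN : Prop := ∀ (α : Type) [Fintype α] (r : α → α → Prop) (M : ℕ) (x y y0 z0 : α), 1 ≤ M →
  x ≠ y → Anti r {x, y, y0, z0} → (∀ z, r z x → r z y0) → (∀ z, r z y → r z y0) →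
  (∀ z, r x z → r z0 z) → (∀ z, r y z → r z0 z) →
  |ex r M (fun f => sg (f x) (f y)) - (ex r M (oo r M y0 z0 y) - ex r M (oo r M y0 z0 x))| ≤
    3 * pr r M (fun f => ¬ inJ r M y0 z0 x f ∧ ¬ inJ r M y0 z0 y f)

/-- (GRP), 120 lines.  Let `d_j` be the increment of `a` over group `j` and `s_{j,i}` the one over its
`i`-th block.  Per `f`: `∑_j d_j ≤ Λ`, `∑_j d_j² ≤ Λ²`, `∑_i s_{j,i} ≤ d_j`.  The number of `j`
which violate the first condition is at most `b/16`, since `∑_j ∑_f d_j ≤ Λ N`.  If `j` violates the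
second one then `∑_f d_j² ≥ ∑_i ∑_f s_{j,i} d_j > 16 Λ² N/b`; since `∑_j ∑_f d_j² ≤ Λ² N` there are
at most `b/16` of them.  (`Λ = 0` or `N = 0`: all sums are `0` and all `j` are good.) -/
def S_GRP : Prop := ∀ (ι : Type) (S : Finset ι) (N Λ : ℝ) (b : ℕ) (a : ℕ → ι → ℝ), 1 ≤ b →
  0 ≤ Λ → (S.card : ℝ) ≤ N →
  (∀ f ∈ S, ∀ i j : ℕ, i ≤ j → j < 8 * b ^ 3 → a i f ≤ a j f) →
  (∀ f ∈ S, a (8 * b ^ 3 - 1) f - a 0 f ≤ Λ) →
  8 * ((range b).filter fun j => ¬ GoodG S N Λ b a j).card ≤ b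

/-- (CELL), 120 lines.  At most `b³` elements of `C` have their `l` in a group `j ∉ QL`, at most
`b · b²` are among the last `b²` of their `l`-group; the same for `ρ`.  So at least `4 b³` elements
remain, in at most `b²` cells `(j, k)`. -/
def S_CELL : Prop := ∀ (α : Type) (C : Finset α) (b : ℕ) (l ρ : α → ℕ) (QL QR : Finset ℕ),
  1 ≤ b → C.card = 8 * b ^ 3 → Set.InjOn l (C : Set α) → Set.InjOn ρ (C : Set α) →
  (∀ x ∈ C, l x < 8 * b ^ 3 ∧ ρ x < 8 * b ^ 3) → QL ⊆ range b → QR ⊆ range b →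
  8 * (range b \ QL).card ≤ b → 8 * (range b \ QR).card ≤ b →
  ∃ j ∈ QL, ∃ k ∈ QR, ∃ X ⊆ C, 4 * b ≤ X.card ∧ ∀ x ∈ X,
    8 * b ^ 2 * j ≤ l x ∧ l x < 8 * b ^ 2 * j + 7 * b ^ 2 ∧
    8 * b ^ 2 * k ≤ ρ x ∧ ρ x < 8 * b ^ 2 * k + 7 * b ^ 2

/-- (SIDE), 250 lines, uses GRP TAIL VV.  `e` enumerates `C` in the order of the lower sets.  Let
`L = Lb b` (so `2^L ≥ 2^22 b^5`), `T₁ = ⌈8 κ⌉ ≤ 9 κ`, `Λ = 2 L T₁ ≤ 18 L κ`,
`G f ↔ ∀ x ∈ C, ln x ≤ Λ`.  VV: `pr (¬ G) ≤ 8 b³ · 2/2^L ≤ 1/(2^18 b²)`.  `lo`, `hi`, `ln` at points of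
`C` do not depend on the values on `C`.  On `G`:
`lo (e (8b³-1)) - lo (e 0) ≤ hi (e 0) - lo (e 0) ≤ Λ` by `cross`.  GRP with
`S = (Om r M).filter G`, `N = |Om r M|`, `a i f = lo (e i)` gives the set `QL` of the good groups.  For
`j ∈ QL` with block `i₀` let `i = 8 b² j + 7 b² + i₀ b`, `B` = image under `e` of `[i, i + b)`,
`y0 = e i`, `xf = e (8 b² j)`, `Δ f = lo (e (8 b² (j+1) - 1)) - lo (e (8 b² j))`,
`T = ⌈2^14 Λ²/(b κ)⌉ ≤ 2^14 · 325 L² κ/b`, `τ = 2 L T`; TAIL with `m = L` gives probability at most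
`6 b/2^L ≤ 1/b^4`. -/
def S_SIDE : Prop := ∀ (α : Type) [Fintype α] (r : α → α → Prop) (M b : ℕ) (κ : ℝ) (C : Finset α),
  Cls r M b κ C → ∀ e : ℕ → α, (∀ i < 8 * b ^ 3, e i ∈ C) →
  (∀ i < 8 * b ^ 3, ∀ j < 8 * b ^ 3, e i = e j → i = j) →
  (∀ i j : ℕ, i ≤ j → j < 8 * b ^ 3 → ∀ z, r z (e i) → r z (e j)) →
  ∃ (QL : Finset ℕ) (τ : ℕ), QL ⊆ range b ∧ 8 * (range b \ QL).card ≤ b ∧
    (τ : ℝ) ≤ 2 ^ 24 * (Lb b : ℝ) ^ 3 * κ / b ∧
    ∀ j ∈ QL, ∃ i : ℕ, 8 * b ^ 2 * j + 7 * b ^ 2 ≤ i ∧ i < 8 * b ^ 2 * (j + 1) ∧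
      pr r M (fun f => lo r f (e (8 * b ^ 2 * j)) + τ ≤ lo r f (e i)) ≤ 1 / (b : ℝ) ^ 4

/-- (CORE), 300 lines, uses SIDE CELL TWO VV DUAL SGN.  Let `l x`, `ρ x` be ranks of the elements of
`C` with `l x ≤ l y → {z | r z x} ⊆ {z | r z y}` and `ρ x ≤ ρ y → {z | r x z} ⊆ {z | r y z}`
(sort by the cardinalities of these sets; `nestD`, `nestU`), and `e`, `e'` the inverse enumerations.
SIDE for `r` and `e`, and SIDE for the reversed relation and `e'` (`Cls` holds for it by DUAL; `QR` and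
`τ'`, and the conclusion means `hi (e' i) + τ' ≤ hi (e' (8 b² k))` with small probability); replace
both by `τ = max τ τ'`.  CELL gives `j`, `k`, `X`; let `y0`, `z0` be the elements given by SIDE for `j`
and `k`, `x₁ = e (8 b² j)`, `w₁ = e' (8 b² k)`.  For `x ∈ X`:
`lo x₁ ≤ lo x ≤ lo y0` and `hi z0 ≤ hi x ≤ hi w₁`.  So outside of an event `Bad` of probability
`2/b^4`: `¬ inJ x` implies `outT τ x`.  Hence for `x ≠ y` in `X` (TWO)
`pr (¬ inJ x ∧ ¬ inJ y) ≤ 2/b^4 + 8 τ²/κ²` and (VV and its dual) `|ex (oo x)| ≤ pr (¬ inJ x) ≤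
2/b^4 + 4 τ/κ =: R`.  Among the `≥ 4 b` numbers `ex (oo x)`, `x ∈ X`, two have a difference of at
most `2 R/(4 b - 1) ≤ R/b`.  SGN (`|X| ≥ 2`). -/
def S_CORE : Prop := ∀ (α : Type) [Fintype α] (r : α → α → Prop) (M b : ℕ) (κ : ℝ) (C : Finset α),
  Cls r M b κ C → ∃ x ∈ C, ∃ y ∈ C, x ≠ y ∧
    |ex r M (fun f => sg (f x) (f y))| ≤ 2 ^ 60 * (Lb b : ℝ) ^ 6 / (b : ℝ) ^ 2

/-- (RANGE), 200 lines.  `kap (·<·) M x / M → e(α)/(n e(α ∖ x))`, `n = |α|`, by
`Pool.Agent.TH161.LW.tendsto_Om` for `α` and for the subtype `{z // z ≠ x}` (our `Om (·<·) M` is the set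
of the monotone maps; the `f` with `f x = lo f x` are in bijection with the monotone maps of the
subtype).  And `e(α ∖ x) ≤ e(α) ≤ inc x · e(α ∖ x)`: a linear extension of `α ∖ x` can be extended,
in at most `inc x` ways (position of `x` among the elements incomparable to `x`; `inc` counts `x`
itself). -/
def S_RANGE : Prop := ∀ (α : Type) [Fintype α] [PartialOrder α], ∀ᶠ M : ℕ in atTop, ∀ x : α,
  (M : ℝ) ≤ 2 * Fintype.card α * kap (fun a b : α => a < b) M x ∧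
  Fintype.card α * kap (fun a b : α => a < b) M x ≤
    2 * (Pool.Agent.TH447.KS.inc (fun a b : α => a < b) x : ℝ) * M

/-- (LIM), 100 lines.  Only injective maps matter for `M → ∞`
(`Pool.Agent.TH161.LW.Count`: `card_inj_lt`, `tendsto_noninj`, `tendsto_Om`). -/
def S_LIM : Prop := ∀ (α : Type) [Fintype α] [PartialOrder α] (x y : α), x ≠ y →
  Tendsto (fun M : ℕ => ex (fun a b : α => a < b) M (fun f => sg (f x) (f y))) atTop
    (𝓝 ((Pool.Agent.TH447.KS.cnt (fun a b : α => a < b) x y -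
      Pool.Agent.TH447.KS.cnt (fun a b : α => a < b) y x) /
      (Pool.Agent.TH447.KS.Lin (fun a b : α => a < b)).card))

/-- (LIN), 250 lines, uses CORE RANGE LIM.  Let `n = |P|`, `a = |A|`.  For large `M` the numbers
`kap x · 2 n/M`, `x ∈ A`, are in `[1, 4 W]`, so that by the pigeonhole principle there are `i` and
`C₀ ⊆ A` with `kap x ∈ [κ, 4 κ]`, `κ = 4^i M/(2n)`, for `x ∈ C₀` and `|C₀| ≥ a/I`,
`I = 2 + log₂ W ≤ 4 (1 + log (W + a))`.  Let `b = ⌊(a/(8 I))^(1/3)⌋`; if `b = 0` the claim is trivial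
(`K` large, the left side is at most `|Lin|`, take any two elements).  Otherwise `Cls` holds for a
subset of `8 b³` elements of `C₀` (`cross`, `nestD`, `nestU` follow from the hypothesis on four
elements, as `A` is an antichain) and CORE gives a pair for this `M`.  One pair occurs for infinitely
many `M`; use LIM.  `Lb b ≤ 22 + 5 (1 + log₂ b) ≤ 30 (1 + log (W + a))`,
`b² ≥ (1/4) (a/(8 I))^(2/3) ≥ c a^(2/3)/(1 + log (W + a))`. -/
def S_LIN : Prop := ∃ K : ℝ, 0 < K ∧ ∀ (P : Type) [Fintype P] [PartialOrder P],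
  (∀ a b c d : P, a < b → c < d → a < d ∨ c < b) → ∀ (A : Finset P) (W : ℕ),
  (∀ a ∈ A, ∀ b ∈ A, ¬ a < b) → 2 ≤ A.card →
  (∀ x ∈ A, Pool.Agent.TH447.KS.inc (fun a b : P => a < b) x ≤ W) →
  ∃ x ∈ A, ∃ y ∈ A, x ≠ y ∧
    |Pool.Agent.TH447.KS.cnt (fun a b : P => a < b) x y -
      Pool.Agent.TH447.KS.cnt (fun a b : P => a < b) y x| ≤
    K * (1 + Real.log ((W : ℝ) + A.card)) ^ 7 / (A.card : ℝ) ^ (2 / 3 : ℝ) *
      (Pool.Agent.TH447.KS.Lin (fun a b : P => a < b)).card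

/-- (FIN), 120 lines, uses LIN.  As in `Pool.Agent.TH447.KS.Interval.interval_main` and
`interval_balance`: if some `x` has `inc x > w ^ (5/3)` (and `> 6 w`) use `ladder` (error
`3 w/inc x ≤ 3/w^(2/3)`), otherwise LIN with `W = ⌊w^(5/3)⌋ + 6 w`. -/
def S_FIN : Prop := ∃ K : ℝ, 0 < K ∧ ∀ (P : Type) [Fintype P] [PartialOrder P],
  Pool.Agent.TH447.KS.IsIntervalOrder P → ∀ w : ℕ, 1 ≤ w → Pool.Agent.H931R3.Bal.HasWidth P w →
  1 / 2 - K * (1 + Real.log w) ^ 7 / (w : ℝ) ^ (2 / 3 : ℝ) ≤ Pool.Agent.H13R3.WB.balance P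

end Pool.Agent.V5helper26.IR
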