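import Mathlib
import Pool.Agent.V5helper26.IR.Stm

/-! Project IR: the version of LIN for all posets (hypotheses on the antichain only). -/

set_option autoImplicit false

open Finset Filter Topology
open scoped Classical

namespace Pool.Agent.V5helper26.IR

/-- (LING), uses CORE RANGE LIM.  The same proof as LIN: `cross`, `nestD`, `nestU` of `Cls` are now
hypotheses.  (LIN follows.) -/
def S_LING : Prop := ∃ K : ℝ, 0 < K ∧ ∀ (P : Type) [Fintype P] [PartialOrder P] (A : Finset P) (W : ℕ),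
  (∀ a ∈ A, ∀ b ∈ A, ¬ a < b) → 2 ≤ A.card →
  (∀ x ∈ A, ∀ y ∈ A, ∀ z z' : P, z < y → x < z' → z < z') →
  (∀ x ∈ A, ∀ y ∈ A, (∀ z, z < x → z < y) ∨ (∀ z, z < y → z < x)) →
  (∀ x ∈ A, ∀ y ∈ A, (∀ z, x < z → y < z) ∨ (∀ z, y < z → x < z)) →
  (∀ x ∈ A, Pool.Agent.TH447.KS.inc (fun a b : P => a < b) x ≤ W) →
  ∃ x ∈ A, ∃ y ∈ A, x ≠ y ∧
    |Pool.Agent.TH447.KS.cnt (fun a b : P => a < b) x y -
      Pool.Agent.TH447.KS.cnt (fun a b : P => a < b) y x| ≤
    K * (1 + Real.log ((W : ℝ) + A.card)) ^ 7 / (A.card : ℝ) ^ (2 / 3 : ℝ) *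
      (Pool.Agent.TH447.KS.Lin (fun a b : P => a < b)).card

theorem lin_of_ling (h : S_LING) : S_LIN := by
  obtain ⟨K, hK, h⟩ := h
  refine ⟨K, hK, fun P _ _ h4 A W hA h2 hW => h P A W hA h2 ?_ ?_ ?_ hW⟩
  · intro x hx y hy z z' h1 h3
    rcases h4 z y x z' h1 h3 with h | h
    · exact h
    · exact absurd h (hA x hx y hy)
  · intro x hx y hy
    by_contra hcon
    push Not at hcon
    obtain ⟨⟨z, hz1, hz2⟩, ⟨w, hw1, hw2⟩⟩ := hcon
    rcases h4 z x w y hz1 hw1 with h | h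
    · exact hz2 h
    · exact hw2 h
  · intro x hx y hy
    by_contra hcon
    push Not at hcon
    obtain ⟨⟨z, hz1, hz2⟩, ⟨w, hw1, hw2⟩⟩ := hcon
    rcases h4 x z y w hz1 hw1 with h | h
    · exact hw2 h
    · exact hz2 h

end Pool.Agent.V5helper26.IR
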