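import Mathlib
import Pool.Agent.V5helper26.IR.Stm2
import Pool.Agent.V5helper68.IR.LIN

/-! Project IR: the step LING (the proof of LIN by helper68 with hypotheses on the antichain only) -/

set_option autoImplicit false

open Finset Filter Topology
open scoped Classical

namespace Pool.Agent.V5helper26.IR

open Pool.Agent.V5helper68.IR Pool.Agent.TH447.KS

variable {P : Type} [Fintype P] [PartialOrder P]

theorem pair_G (hCore : S_CORE)
    (A : Finset P) (W b M : ℕ)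
    (hcr : ∀ x ∈ A, ∀ y ∈ A, ∀ z z' : P, z < y → x < z' → z < z')
    (hnD : ∀ x ∈ A, ∀ y ∈ A, (∀ z, z < x → z < y) ∨ (∀ z, z < y → z < x))
    (hnU : ∀ x ∈ A, ∀ y ∈ A, (∀ z, x < z → y < z) ∨ (∀ z, y < z → x < z))
    (hA : ∀ a ∈ A, ∀ b ∈ A, ¬ a < b) (hcard : 2 ≤ A.card)
    (hW : ∀ x ∈ A, Pool.Agent.TH447.KS.inc (fun a b : P => a < b) x ≤ W) (hb : 1 ≤ b)
    (hbI : 8 * b ^ 3 * (Nat.log 4 (4 * W) + 1) ≤ A.card)
    (hM : ∀ x : P, (M : ℝ) ≤ 2 * Fintype.card P * kap (fun a b : P => a < b) M x ∧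
      Fintype.card P * kap (fun a b : P => a < b) M x ≤
        2 * (Pool.Agent.TH447.KS.inc (fun a b : P => a < b) x : ℝ) * M)
    (hMn : 2 * Fintype.card P * b + 1 ≤ M) :
    ∃ x ∈ A, ∃ y ∈ A, x ≠ y ∧
      |ex (fun a b : P => a < b) M (fun f => sg (f x) (f y))| ≤
        2 ^ 60 * (Lb b : ℝ) ^ 6 / (b : ℝ) ^ 2 := by
  obtain ⟨n, hn⟩ : ∃ n, n = Fintype.card P := ⟨_, rfl⟩
  rw [← hn] at hM hMn
  have hnpos : 0 < n := by
    rw [hn]
    have : A.card ≤ Fintype.card P := Finset.card_le_univ A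
    omega
  have hn' : (0 : ℝ) < n := by exact_mod_cast hnpos
  have hMpos : 0 < M := by omega
  have hM' : (0 : ℝ) < M := by exact_mod_cast hMpos
  obtain ⟨t, ht⟩ : ∃ t : P → ℝ, ∀ x, t x = kap (fun a b : P => a < b) M x * (2 * n) / M :=
    ⟨_, fun x => rfl⟩
  have ht1 : ∀ x : P, 1 ≤ t x := by
    intro x
    rw [ht, le_div_iff₀ hM']
    linarith [(hM x).1]
  have ht2 : ∀ x ∈ A, t x ≤ 4 * W := by
    intro x hx
    rw [ht, div_le_iff₀ hM']
    have h1 := (hM x).2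
    have h2 : (Pool.Agent.TH447.KS.inc (fun a b : P => a < b) x : ℝ) ≤ W := by
      exact_mod_cast hW x hx
    have h3 : 2 * (Pool.Agent.TH447.KS.inc (fun a b : P => a < b) x : ℝ) * M ≤ 2 * W * M :=
      mul_le_mul_of_nonneg_right (by linarith) hM'.le
    nlinarith
  have hmaps : ∀ x ∈ A, Nat.log 4 ⌊t x⌋₊ ∈ range (Nat.log 4 (4 * W) + 1) := by
    intro x hx
    rw [Finset.mem_range]
    exact (cls_of (ht1 x) (ht2 x hx)).1
  obtain ⟨i, -, hi⟩ := Finset.exists_le_card_fiber_of_mul_le_card_of_maps_to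
    (n := 8 * b ^ 3) hmaps ⟨0, by simp⟩ (by rw [Finset.card_range, mul_comm]; exact hbI)
  obtain ⟨C, hCs, hCc⟩ := Finset.exists_subset_card_eq hi
  have hCA : ∀ x ∈ C, x ∈ A ∧ Nat.log 4 ⌊t x⌋₊ = i := fun x hx => Finset.mem_filter.1 (hCs hx)
  have hCls : Cls (fun a b : P => a < b) M b ((4 : ℝ) ^ i * M / (2 * n)) C := by
    refine ⟨hb, hMpos, ?_, hCc, ?_, ?_, ?_, ?_, ?_⟩
    · intro a ha b hb'
      exact hA a (hCA a ha).1 b (hCA b hb').1
    · intro x hx y hy z z' h1 h2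
      exact hcr x (hCA x hx).1 y (hCA y hy).1 z z' h1 h2
    · intro x hx y hy
      exact hnD x (hCA x hx).1 y (hCA y hy).1
    · intro x hx y hy
      exact hnU x (hCA x hx).1 y (hCA y hy).1
    · intro x hx
      obtain ⟨hxA, hxi⟩ := hCA x hx
      obtain ⟨-, h1, h2⟩ := cls_of (ht1 x) (ht2 x hxA)
      rw [hxi] at h1 h2
      rw [ht] at h1 h2
      rw [le_div_iff₀ hM'] at h1
      rw [div_le_iff₀ hM'] at h2
      constructor
      · rw [div_le_iff₀ (by positivity)]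
        linarith
      · rw [mul_div_assoc', le_div_iff₀ (by positivity)]
        linarith
    · rw [le_div_iff₀ (by positivity)]
      have h1 : ((2 * n * b + 1 : ℕ) : ℝ) ≤ M := by exact_mod_cast hMn
      push_cast at h1
      have h2 : (1 : ℝ) ≤ (4 : ℝ) ^ i := one_le_pow₀ (by norm_num)
      nlinarith
  obtain ⟨x, hx, y, hy, hxy, h⟩ := hCore P (fun a b : P => a < b) M b _ C hCls
  exact ⟨x, (hCA x hx).1, y, (hCA y hy).1, hxy, h⟩

/-- (LING) -/
theorem t_LING (hCore : S_CORE) (hR : S_RANGE) (hL : S_LIM) : S_LING := by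
  refine ⟨2 ^ 66 * 27 ^ 6, by positivity, ?_⟩
  intro P _ _ A W hA hcard hcr hnD hnU hW
  obtain ⟨r, hr⟩ : ∃ r : P → P → Prop, r = fun a b : P => a < b := ⟨_, rfl⟩
  obtain ⟨x₀, hx₀⟩ : A.Nonempty := by rw [← Finset.card_pos]; omega
  have haW : A.card ≤ W := (card_le_inc A hA x₀ hx₀).trans (hW x₀ hx₀)
  have hW1 : 1 ≤ W := by omega
  obtain ⟨a, ha⟩ : ∃ a, a = A.card := ⟨_, rfl⟩
  obtain ⟨l, hl⟩ : ∃ l : ℝ, l = 1 + Real.log ((W : ℝ) + A.card) := ⟨_, rfl⟩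
  have hW1' : (1 : ℝ) ≤ W := by exact_mod_cast hW1
  have hl1 : 1 ≤ l := by
    rw [hl]
    have : 0 ≤ Real.log ((W : ℝ) + A.card) := Real.log_nonneg (by
      have : (0 : ℝ) ≤ (A.card : ℝ) := Nat.cast_nonneg _
      linarith)
    linarith
  have hI := num_le (W := W) (a := A.card) hW1
  rw [← hl] at hI
  obtain ⟨b, hb1, hb2⟩ := exists_b A.card (Nat.log 4 (4 * W) + 1) (by omega)
  have hb2' : (A.card : ℝ) ≤ 8 * ((b : ℝ) + 1) ^ 3 * (2 * l) := by
    have h1 : ((A.card : ℕ) : ℝ) ≤ ((8 * (b + 1) ^ 3 * (Nat.log 4 (4 * W) + 1) : ℕ) : ℝ) := by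
      exact_mod_cast hb2.le
    push_cast at h1 hI
    refine h1.trans ?_
    apply mul_le_mul_of_nonneg_left hI (by positivity)
  have hapos : (0 : ℝ) < A.card := by
    have : 0 < A.card := by omega
    exact_mod_cast this
  have hap : (0 : ℝ) < (A.card : ℝ) ^ (2 / 3 : ℝ) := Real.rpow_pos_of_pos hapos _
  have hLin : (0 : ℝ) ≤ ((Pool.Agent.TH447.KS.Lin (fun a b : P => a < b)).card : ℝ) :=
    Nat.cast_nonneg _
  rw [← hl]
  rcases Nat.eq_zero_or_pos b with hb0 | hbpos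
  · -- the trivial case
    subst hb0
    obtain ⟨x, hx, y, hy, hxy⟩ := Finset.one_lt_card.1 (show 1 < A.card by omega)
    refine ⟨x, hx, y, hy, hxy, (cnt_abs _ x y).trans ?_⟩
    have h1 : (A.card : ℝ) ≤ 16 * l := by
      push_cast at hb2'
      linarith
    have h2 : (A.card : ℝ) ^ (2 / 3 : ℝ) ≤ 64 * l * ((1 : ℕ) : ℝ) ^ 2 :=
      pow_bound hl1 le_rfl (by push_cast; linarith)
    have h3 : (1 : ℝ) ≤ 2 ^ 66 * 27 ^ 6 * l ^ 7 / (A.card : ℝ) ^ (2 / 3 : ℝ) := by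
      rw [le_div_iff₀ hap]
      push_cast at h2
      have h4 : l ≤ l ^ 7 := le_self_pow₀ hl1 (by norm_num)
      nlinarith
    nlinarith
  · -- the main case
    obtain ⟨R, hRR⟩ : ∃ R : ℝ, R = 2 ^ 60 * (Lb b : ℝ) ^ 6 / (b : ℝ) ^ 2 := ⟨_, rfl⟩
    have hev : ∀ᶠ M : ℕ in atTop, ∃ p : P × P, (p.1 ∈ A ∧ p.2 ∈ A ∧ p.1 ≠ p.2) ∧
        |ex (fun a b : P => a < b) M (fun f => sg (f p.1) (f p.2))| ≤ R := by
      filter_upwards [hR P, eventually_ge_atTop (2 * Fintype.card P * b + 1)] with M h1 h2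
      obtain ⟨x, hx, y, hy, hxy, h⟩ := pair_G hCore A W b M hcr hnD hnU hA hcard hW hbpos hb1 h1 h2
      exact ⟨(x, y), ⟨hx, hy, hxy⟩, by rw [hRR]; exact h⟩
    have hfr : ∃ p : P × P, ∃ᶠ M : ℕ in atTop, (p.1 ∈ A ∧ p.2 ∈ A ∧ p.1 ≠ p.2) ∧
        |ex (fun a b : P => a < b) M (fun f => sg (f p.1) (f p.2))| ≤ R := by
      by_contra hcon
      rw [not_exists] at hcon
      have h1 : ∀ᶠ M : ℕ in atTop, ∀ p : P × P, ¬ ((p.1 ∈ A ∧ p.2 ∈ A ∧ p.1 ≠ p.2) ∧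
          |ex (fun a b : P => a < b) M (fun f => sg (f p.1) (f p.2))| ≤ R) := by
        rw [eventually_all]
        intro p
        exact Filter.not_frequently.1 (hcon p)
      obtain ⟨M, ⟨p, hp⟩, h2⟩ := (hev.and h1).exists
      exact h2 p hp
    obtain ⟨⟨x, y⟩, hxyf⟩ := hfr
    obtain ⟨M₀, ⟨hx, hy, hxy⟩, -⟩ := hxyf.exists
    simp only at hx hy hxy
    refine ⟨x, hx, y, hy, hxy, ?_⟩
    have hlim := (hL P x y hxy).abs
    have hle : |(Pool.Agent.TH447.KS.cnt (fun a b : P => a < b) x y -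
        Pool.Agent.TH447.KS.cnt (fun a b : P => a < b) y x) /
        (Pool.Agent.TH447.KS.Lin (fun a b : P => a < b)).card| ≤ R := by
      by_contra hcon
      have h1 := hlim.eventually (lt_mem_nhds (not_le.1 hcon))
      obtain ⟨M, h2, h3⟩ := (hxyf.and_eventually h1).exists
      exact absurd h2.2 (not_le.2 h3)
    -- numbers
    have hbr : (1 : ℝ) ≤ b := by exact_mod_cast hbpos
    have hba : b ≤ A.card := by
      have h1 : b ≤ b ^ 3 := Nat.le_self_pow (by norm_num) _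
      have h2 : 8 * b ^ 3 * 1 ≤ 8 * b ^ 3 * (Nat.log 4 (4 * W) + 1) :=
        Nat.mul_le_mul_left _ (by omega)
      omega
    have hLb := Lb_le (W := W) hW1 hba
    rw [← hl] at hLb
    have h2 : (A.card : ℝ) ^ (2 / 3 : ℝ) ≤ 64 * l * (b : ℝ) ^ 2 := by
      apply pow_bound hl1 hbpos
      refine hb2'.trans ?_
      have h3 : ((b : ℝ) + 1) ^ 3 ≤ (2 * (b : ℝ)) ^ 3 :=
        pow_le_pow_left₀ (by positivity) (by linarith) 3
      nlinarith
    have hRle : R ≤ 2 ^ 66 * 27 ^ 6 * l ^ 7 / (A.card : ℝ) ^ (2 / 3 : ℝ) := by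
      rw [hRR, div_le_div_iff₀ (by positivity) hap]
      have h3 : (Lb b : ℝ) ^ 6 ≤ (27 * l) ^ 6 := pow_le_pow_left₀ (Nat.cast_nonneg _) hLb 6
      calc 2 ^ 60 * (Lb b : ℝ) ^ 6 * (A.card : ℝ) ^ (2 / 3 : ℝ)
          ≤ 2 ^ 60 * (27 * l) ^ 6 * (64 * l * (b : ℝ) ^ 2) := by
            apply mul_le_mul _ h2 hap.le (by positivity)
            exact mul_le_mul_of_nonneg_left h3 (by positivity)
        _ = 2 ^ 66 * 27 ^ 6 * l ^ 7 * (b : ℝ) ^ 2 := by ring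
    rcases hLin.eq_or_lt with h0 | h0
    · have h3 := cnt_abs (fun a b : P => a < b) x y
      rw [← h0] at h3
      rw [← h0, mul_zero]
      exact h3
    · rw [abs_div, abs_of_pos h0, div_le_iff₀ h0] at hle
      exact hle.trans (mul_le_mul_of_nonneg_right hRle h0.le)

end Pool.Agent.V5helper26.IR
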