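import Mathlib
import Pool.Agent.V5helper26.IR.Stm
import Pool.Agent.N502.IO.Main

/-! Project IR: from the bound for single posets to `dI` and its growth. -/

set_option autoImplicit false

open Finset Filter Topology
open scoped Classical

namespace Pool.Agent.V5helper26.IR

open Pool.Agent.TH447.KS (IsIntervalOrder dI exists_interval)
open Pool.Agent.H931R3.Bal (HasWidth)
open Pool.Agent.H13R3.WB (balance)
open Pool.Agent.N502.IO

lemma dI_le_log (w : ℕ) (hw : 1 ≤ w) :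
    dI w ≤ 1 / 2 - (1 + Real.log w) / (40000 * w) := by
  refine le_trans ?_ (dM_le' (k := 2) le_rfl hw)
  unfold dI dM
  apply csInf_le_csInf
  · refine ⟨0, ?_⟩
    rintro d ⟨Q, _, _, _, h4, rfl⟩
    obtain ⟨⟨A, _, hAc⟩, _⟩ := h4
    have hne : Nonempty Q := by
      obtain ⟨x, _⟩ := Finset.card_pos.1 (show 0 < A.card by omega)
      exact ⟨x⟩
    exact Pool.Agent.H931R3.Bal.balance_nonneg
  · obtain ⟨n, X, hn, -, ⟨P, i1, i2, h1, h2, h3, h4, h5, h6, -⟩, -, -⟩ := low_family w hw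
    exact ⟨_, P, i1, i2, h4, h5.mono le_rfl, h2, rfl⟩
  · rintro d ⟨P, i1, i2, h1, -, h2, h3⟩
    exact ⟨P, i1, i2, h1, h2, h3⟩

/-- the auxiliary inequality for the growth -/
lemma growth_aux (K : ℝ) (hK : 0 < K) : ∃ C : ℝ, 1 ≤ C ∧ ∀ w v : ℝ, 1 ≤ w →
    C * w ^ (3 / 2 : ℝ) * (1 + Real.log w) ^ 9 ≤ v →
    K * (1 + Real.log v) ^ 7 / v ^ (2 / 3 : ℝ) < (1 + Real.log w) / (40000 * w) := by
  set Q : ℝ := 40000 * K * 12 ^ 7 * 33 ^ 7 + 1 with hQ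
  have hQ1 : 1 ≤ Q := by
    have : 0 < 40000 * K * 12 ^ 7 * 33 ^ 7 := by positivity
    linarith
  refine ⟨Q ^ 3, one_le_pow₀ hQ1, fun w v hw hv => ?_⟩
  set C : ℝ := Q ^ 3 with hC
  have hC1 : 1 ≤ C := one_le_pow₀ hQ1
  have hC0 : 0 < C := by linarith
  have hw0 : 0 < w := by linarith
  set l : ℝ := 1 + Real.log w with hl
  have hl1 : 1 ≤ l := by
    have := Real.log_nonneg hw
    linarith
  have hl0 : 0 < l := by linarith
  set X : ℝ := C * w ^ (3 / 2 : ℝ) * l ^ 9 with hX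
  have hwr : 1 ≤ w ^ (3 / 2 : ℝ) := Real.one_le_rpow hw (by norm_num)
  have hX1 : 1 ≤ X := by
    have h1 : 1 ≤ C * w ^ (3 / 2 : ℝ) := by nlinarith
    have h2 : 1 ≤ l ^ 9 := one_le_pow₀ hl1
    rw [hX]; nlinarith
  have hX0 : 0 < X := by linarith
  have hv0 : 0 < v := by linarith
  set ρ : ℝ := v / X with hρ
  have hρ1 : 1 ≤ ρ := by rw [hρ, le_div_iff₀ hX0]; linarith
  have hρ0 : 0 < ρ := by linarith
  have hvX : v = X * ρ := by rw [hρ]; field_simp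
  have hlogX : 0 ≤ Real.log X := Real.log_nonneg hX1
  have hlogρ : 0 ≤ Real.log ρ := Real.log_nonneg hρ1
  -- `1 + log v ≤ (1 + log X) * 12 * ρ ^ (1/12)`
  have h1 : 1 + Real.log v ≤ (1 + Real.log X) * (12 * ρ ^ (1 / 12 : ℝ)) := by
    rw [hvX, Real.log_mul hX0.ne' hρ0.ne']
    have h2 : Real.log ρ ≤ 12 * (ρ ^ (1 / 12 : ℝ) - 1) := by
      have h3 : Real.log (ρ ^ (1 / 12 : ℝ)) ≤ ρ ^ (1 / 12 : ℝ) - 1 :=
        Real.log_le_sub_one_of_pos (by positivity)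
      rw [Real.log_rpow hρ0] at h3
      linarith
    have h3 : 1 + Real.log ρ ≤ 12 * ρ ^ (1 / 12 : ℝ) := by linarith
    nlinarith [mul_nonneg hlogX hlogρ, mul_le_mul_of_nonneg_left h3 (show 0 ≤ 1 + Real.log X by linarith)]
  have h2 : (1 + Real.log v) ^ 7 ≤ (1 + Real.log X) ^ 7 * 12 ^ 7 * ρ ^ (7 / 12 : ℝ) := by
    have h3 : 0 ≤ 1 + Real.log v := by
      have := Real.log_nonneg (show 1 ≤ v by linarith)
      linarith
    calc (1 + Real.log v) ^ 7 ≤ ((1 + Real.log X) * (12 * ρ ^ (1 / 12 : ℝ))) ^ 7 :=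
          pow_le_pow_left₀ h3 h1 7
      _ = (1 + Real.log X) ^ 7 * 12 ^ 7 * (ρ ^ (1 / 12 : ℝ)) ^ 7 := by ring
      _ = _ := by
          rw [← Real.rpow_natCast (ρ ^ (1 / 12 : ℝ)) 7, ← Real.rpow_mul hρ0.le]
          norm_num
  have h3 : 1 + Real.log X ≤ (12 + Real.log C) * l := by
    have e : Real.log X = Real.log C + 3 / 2 * Real.log w + 9 * Real.log l := by
      have e0 : Real.log (l ^ 9) = 9 * Real.log l := by
        rw [Real.log_pow]; push_cast; ring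
      rw [hX, Real.log_mul (by positivity) (by positivity),
        Real.log_mul hC0.ne' (by positivity), Real.log_rpow hw0, e0]
    have e2 : Real.log l ≤ l - 1 := Real.log_le_sub_one_of_pos hl0
    have e3 : 0 ≤ Real.log C := Real.log_nonneg hC1
    have e4 : Real.log w = l - 1 := by rw [hl]; ring
    rw [e, e4]
    nlinarith [mul_nonneg e3 (sub_nonneg.2 hl1)]
  have h4 : 12 + Real.log C ≤ 33 * C ^ (1 / 21 : ℝ) := by
    have h5 : Real.log (C ^ (1 / 21 : ℝ)) ≤ C ^ (1 / 21 : ℝ) - 1 :=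
      Real.log_le_sub_one_of_pos (by positivity)
    rw [Real.log_rpow hC0] at h5
    have h6 : 1 ≤ C ^ (1 / 21 : ℝ) := Real.one_le_rpow hC1 (by norm_num)
    linarith
  have h5 : (1 + Real.log X) ^ 7 ≤ 33 ^ 7 * C ^ (1 / 3 : ℝ) * l ^ 7 := by
    calc (1 + Real.log X) ^ 7 ≤ (33 * C ^ (1 / 21 : ℝ) * l) ^ 7 := by
          apply pow_le_pow_left₀ (by linarith)
          exact h3.trans (mul_le_mul_of_nonneg_right h4 hl0.le)
      _ = 33 ^ 7 * (C ^ (1 / 21 : ℝ)) ^ 7 * l ^ 7 := by ring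
      _ = _ := by
          rw [← Real.rpow_natCast (C ^ (1 / 21 : ℝ)) 7, ← Real.rpow_mul hC0.le]
          norm_num
  have h6 : v ^ (2 / 3 : ℝ) = C ^ (2 / 3 : ℝ) * w * l ^ 6 * ρ ^ (2 / 3 : ℝ) := by
    rw [hvX, hX, Real.mul_rpow (by positivity) hρ0.le, Real.mul_rpow (by positivity) (by positivity),
      Real.mul_rpow hC0.le (by positivity), ← Real.rpow_mul hw0.le]
    have e1 : (3 / 2 * (2 / 3) : ℝ) = 1 := by norm_num
    have e2 : (l ^ 9) ^ (2 / 3 : ℝ) = l ^ 6 := by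
      rw [← Real.rpow_natCast l 9, ← Real.rpow_mul hl0.le, ← Real.rpow_natCast l 6]
      norm_num
    rw [e1, e2, Real.rpow_one]
  have hC13 : C ^ (2 / 3 : ℝ) = C ^ (1 / 3 : ℝ) * C ^ (1 / 3 : ℝ) := by
    rw [← Real.rpow_add hC0]; norm_num
  have hC3 : C ^ (1 / 3 : ℝ) = Q := by
    rw [hC, ← Real.rpow_natCast Q 3, ← Real.rpow_mul (by linarith)]
    norm_num
  have hρ7 : ρ ^ (7 / 12 : ℝ) ≤ ρ ^ (2 / 3 : ℝ) :=
    Real.rpow_le_rpow_of_exponent_le hρ1 (by norm_num)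
  have hρp : 0 < ρ ^ (2 / 3 : ℝ) := by positivity
  rw [h6, hC13, hC3]
  rw [div_lt_div_iff₀ (by positivity) (by positivity)]
  have h7 : K * (1 + Real.log v) ^ 7 ≤ K * (33 ^ 7 * Q * l ^ 7 * 12 ^ 7 * ρ ^ (2 / 3 : ℝ)) := by
    apply mul_le_mul_of_nonneg_left _ hK.le
    refine h2.trans ?_
    have h8 : (1 + Real.log X) ^ 7 * 12 ^ 7 * ρ ^ (7 / 12 : ℝ) ≤
        (33 ^ 7 * C ^ (1 / 3 : ℝ) * l ^ 7) * 12 ^ 7 * ρ ^ (2 / 3 : ℝ) := by
      apply mul_le_mul _ hρ7 (by positivity) (by positivity)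
      exact mul_le_mul_of_nonneg_right h5 (by positivity)
    rw [hC3] at h8
    exact h8
  have h9 : 40000 * K * 12 ^ 7 * 33 ^ 7 < Q := by rw [hQ]; linarith
  have h10 : 0 < Q * w * l ^ 7 * ρ ^ (2 / 3 : ℝ) := by positivity
  calc K * (1 + Real.log v) ^ 7 * (40000 * w)
      ≤ K * (33 ^ 7 * Q * l ^ 7 * 12 ^ 7 * ρ ^ (2 / 3 : ℝ)) * (40000 * w) :=
        mul_le_mul_of_nonneg_right h7 (by positivity)
    _ = (40000 * K * 12 ^ 7 * 33 ^ 7) * (Q * w * l ^ 7 * ρ ^ (2 / 3 : ℝ)) := by ring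
    _ < Q * (Q * w * l ^ 7 * ρ ^ (2 / 3 : ℝ)) := mul_lt_mul_of_pos_right h9 h10
    _ = l * (Q * Q * w * l ^ 6 * ρ ^ (2 / 3 : ℝ)) := by ring

theorem out (h : S_FIN) : ∃ C : ℝ, 0 < C ∧
    (∀ w : ℕ, 1 ≤ w →
      (∀ (P : Type) [Fintype P] [PartialOrder P], IsIntervalOrder P → HasWidth P w →
        1 / 2 - C * (1 + Real.log w) ^ 7 / (w : ℝ) ^ (2 / 3 : ℝ) ≤ balance P) ∧
      1 / 2 - C * (1 + Real.log w) ^ 7 / (w : ℝ) ^ (2 / 3 : ℝ) ≤ dI w ∧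
      dI w ≤ 1 / 2 - (1 + Real.log w) / (40000 * w)) ∧
    (∀ w v : ℕ, 1 ≤ w → C * (w : ℝ) ^ (3 / 2 : ℝ) * (1 + Real.log w) ^ 9 ≤ v → dI w < dI v) := by
  obtain ⟨K, hK, hF⟩ := h
  obtain ⟨C₀, hC₀, hG⟩ := growth_aux K hK
  have hmono : ∀ w : ℕ, 1 ≤ w → 1 / 2 - max K C₀ * (1 + Real.log w) ^ 7 / (w : ℝ) ^ (2 / 3 : ℝ) ≤
      1 / 2 - K * (1 + Real.log w) ^ 7 / (w : ℝ) ^ (2 / 3 : ℝ) := by
    intro w hw
    have hw1 : (1 : ℝ) ≤ w := by exact_mod_cast hw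
    have hl : 0 ≤ Real.log w := Real.log_nonneg hw1
    have : K * (1 + Real.log w) ^ 7 / (w : ℝ) ^ (2 / 3 : ℝ) ≤
        max K C₀ * (1 + Real.log w) ^ 7 / (w : ℝ) ^ (2 / 3 : ℝ) := by
      apply div_le_div_of_nonneg_right _ (by positivity)
      exact mul_le_mul_of_nonneg_right (le_max_left _ _) (by positivity)
    linarith
  have hd : ∀ w : ℕ, 1 ≤ w → 1 / 2 - K * (1 + Real.log w) ^ 7 / (w : ℝ) ^ (2 / 3 : ℝ) ≤ dI w := by
    intro w hw
    unfold dI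
    apply le_csInf
    · obtain ⟨P, i1, i2, h1, h2, -⟩ := exists_interval w hw
      exact ⟨_, P, i1, i2, h1, h2, rfl⟩
    · rintro d ⟨P, _, _, h1, h2, rfl⟩
      exact hF P h1 w hw h2
  refine ⟨max K C₀, lt_of_lt_of_le hK (le_max_left _ _), fun w hw => ⟨?_, ?_, dI_le_log w hw⟩, ?_⟩
  · intro P _ _ h1 h2
    exact (hmono w hw).trans (hF P h1 w hw h2)
  · exact (hmono w hw).trans (hd w hw)
  · intro w v hw hv
    have hw1 : (1 : ℝ) ≤ w := by exact_mod_cast hw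
    have hl : 0 ≤ Real.log w := Real.log_nonneg hw1
    have hwr : 1 ≤ (w : ℝ) ^ (3 / 2 : ℝ) := Real.one_le_rpow hw1 (by norm_num)
    have hle : C₀ * (w : ℝ) ^ (3 / 2 : ℝ) * (1 + Real.log w) ^ 9 ≤ v := by
      refine le_trans ?_ hv
      apply mul_le_mul_of_nonneg_right _ (by positivity)
      exact mul_le_mul_of_nonneg_right (le_max_right _ _) (by positivity)
    have hv1 : (1 : ℝ) ≤ v := by
      refine le_trans ?_ hle
      have h1 : 1 ≤ C₀ * (w : ℝ) ^ (3 / 2 : ℝ) := by nlinarith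
      have h2 : (1 : ℝ) ≤ (1 + Real.log w) ^ 9 := one_le_pow₀ (by linarith)
      nlinarith
    have hv1' : 1 ≤ v := by exact_mod_cast hv1
    have h1 := hG w v hw1 hle
    have h2 := hd v hv1'
    have h3 := dI_le_log w hw
    linarith

end Pool.Agent.V5helper26.IR
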