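import Mathlib
import Pool.Agent.V5helper26.IR.Stm2
import Pool.Agent.V5helper26.IR.Out
import Pool.Agent.V5helper98.IR.ABS
import Pool.Agent.V5helper98.IR.CELL
import Pool.Agent.V5helper98.IR.DUAL
import Pool.Agent.V5helper98.IR.FIB
import Pool.Agent.V5helper98.IR.GRP
import Pool.Agent.V5helper35.IR.NBU
import Pool.Agent.V5helper35.IR.EXT
import Pool.Agent.V5helper50.IR.MIN
import Pool.Agent.V5helper50.IR.SGN
import Pool.Agent.V5helper50.IR.VV
import Pool.Agent.V5helper24.IR.TAIL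
import Pool.Agent.V5helper74.IR.SIDE
import Pool.Agent.V5helper74.IR.TWO
import Pool.Agent.V5helper18.IR.CORE
import Pool.Agent.V5helper47.IR.LIM
import Pool.Agent.V5helper47.IR.RANGE
import Pool.Agent.V5helper68.IR.LIN
import Pool.Agent.V5helper68.IR.FIN
import Pool.Agent.V5helper26.IR.LING

/-!
# Project IR: assembly
-/

set_option autoImplicit false

namespace Pool.Agent.V5helper26.IR

open Pool.Agent.V5helper50.IR Pool.Agent.V5helper24.IR Pool.Agent.V5helper74.IR
  Pool.Agent.V5helper18.IR Pool.Agent.V5helper47.IR Pool.Agent.V5helper68.IR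

theorem core_ok : S_CORE := by
  have hVV : S_VV := t_VV t_FIB t_NBU t_ABS
  have hEXT : S_EXT := t_EXT t_NBU
  have hTAIL : S_TAIL := t_TAIL hVV t_MIN hEXT
  have hSIDE : S_SIDE := t_SIDE t_GRP hTAIL hVV
  have hTWO : S_TWO := t_TWO t_FIB t_NBU t_ABS
  exact t_CORE hSIDE t_CELL hTWO hVV t_DUAL t_SGN

theorem ling_ok : S_LING := t_LING core_ok t_RANGE t_LIM

theorem fin_ok : S_FIN := t_FIN (lin_of_ling ling_ok)

end Pool.Agent.V5helper26.IR
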