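import Mathlib
import Pool.Agent.V5helper26.IR.All

/-!
# Project IR: the final form
-/

set_option autoImplicit false

open scoped Classical

namespace Pool.Agent.V5helper26.IR

open Pool.Agent.TH447.KS (IsIntervalOrder dI)
open Pool.Agent.H931R3.Bal (HasWidth)
open Pool.Agent.H13R3.WB (balance prob)

/-- The lower and the upper sets of the elements of `A` form two chains, and everything below some
element of `A` is below everything above some element of `A`. -/
def Nested {P : Type} [PartialOrder P] (A : Finset P) : Prop :=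
  (∀ x ∈ A, ∀ y ∈ A, (∀ z, z < x → z < y) ∨ (∀ z, z < y → z < x)) ∧
  (∀ x ∈ A, ∀ y ∈ A, (∀ z, x < z → y < z) ∨ (∀ z, y < z → x < z)) ∧
  (∀ x ∈ A, ∀ y ∈ A, ∀ z z' : P, z < y → x < z' → z < z')

/-- every element of `A` is incomparable to at most `W` elements (itself included) -/
def IncLe {P : Type} [Fintype P] [PartialOrder P] (A : Finset P) (W : ℕ) : Prop :=
  ∀ x ∈ A, (Finset.univ.filter fun z => ¬ x < z ∧ ¬ z < x).card ≤ W

theorem final : ∃ C : ℝ, 0 < C ∧
    (∀ w : ℕ, 1 ≤ w →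
      (∀ (P : Type) [Fintype P] [PartialOrder P], IsIntervalOrder P → HasWidth P w →
        1 / 2 - C * (1 + Real.log w) ^ 7 / (w : ℝ) ^ (2 / 3 : ℝ) ≤ balance P) ∧
      1 / 2 - C * (1 + Real.log w) ^ 7 / (w : ℝ) ^ (2 / 3 : ℝ) ≤ dI w ∧
      dI w ≤ 1 / 2 - (1 + Real.log w) / (40000 * w)) ∧
    (∀ w v : ℕ, 1 ≤ w → C * (w : ℝ) ^ (3 / 2 : ℝ) * (1 + Real.log w) ^ 9 ≤ v → dI w < dI v) ∧
    (∀ (P : Type) [Fintype P] [PartialOrder P] (A : Finset P) (W : ℕ),
      IsAntichain (· ≤ ·) (A : Set P) → 2 ≤ A.card → Nested A → IncLe A W →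
      ∃ x ∈ A, ∃ y ∈ A, x ≠ y ∧ |prob P x y - 1 / 2| ≤
        C * (1 + Real.log ((W : ℝ) + A.card)) ^ 7 / (A.card : ℝ) ^ (2 / 3 : ℝ)) := by
  obtain ⟨C, hC, h1, h2⟩ := out fin_ok
  obtain ⟨K, hK, h3⟩ := ling_ok
  have hmono : ∀ (a : ℝ) (w : ℕ), 0 ≤ a → C * a / (w : ℝ) ^ (2 / 3 : ℝ) ≤
      max C K * a / (w : ℝ) ^ (2 / 3 : ℝ) := by
    intro a w ha
    apply div_le_div_of_nonneg_right _ (by positivity)
    exact mul_le_mul_of_nonneg_right (le_max_left _ _) ha
  have hlog : ∀ w : ℕ, 1 ≤ w → 0 ≤ Real.log w := fun w hw =>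
    Real.log_nonneg (by exact_mod_cast hw)
  refine ⟨max C K, lt_of_lt_of_le hC (le_max_left _ _), fun w hw => ⟨?_, ?_, ?_⟩, ?_, ?_⟩
  · intro P _ _ h4 h5
    have h6 := (h1 w hw).1 P h4 h5
    have h7 := hmono ((1 + Real.log w) ^ 7) w (by have := hlog w hw; positivity)
    linarith
  · have h6 := (h1 w hw).2.1
    have h7 := hmono ((1 + Real.log w) ^ 7) w (by have := hlog w hw; positivity)
    linarith
  · exact (h1 w hw).2.2
  · intro w v hw hv
    apply h2 w v hw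
    refine le_trans ?_ hv
    have := hlog w hw
    apply mul_le_mul_of_nonneg_right _ (by positivity)
    exact mul_le_mul_of_nonneg_right (le_max_left _ _) (by positivity)
  · intro P _ _ A W hA h4 hN hW
    obtain ⟨x, hx, y, hy, hxy, h5⟩ := h3 P A W (Pool.Agent.TH447.KS.anti_iff.1 hA) h4 hN.2.2 hN.1
      hN.2.1 hW
    refine ⟨x, hx, y, hy, hxy, ?_⟩
    have hpos : (0 : ℝ) < (Pool.Agent.TH447.KS.Lin (Pool.Agent.TH447.KS.lt' P)).card := by
      exact_mod_cast Pool.Agent.TH447.KS.lin_pos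
    have hadd := Pool.Agent.TH447.KS.cnt_add (r := Pool.Agent.TH447.KS.lt' P) hxy
    have hl : 0 ≤ Real.log ((W : ℝ) + A.card) := by
      apply Real.log_nonneg
      have h7 : (2 : ℝ) ≤ A.card := by exact_mod_cast h4
      have h8 : (0 : ℝ) ≤ W := Nat.cast_nonneg _
      linarith
    set L : ℝ := 1 + Real.log ((W : ℝ) + A.card) with hL
    have hL0 : 0 < L := by linarith
    have e : prob P x y - 1 / 2 = (Pool.Agent.TH447.KS.cnt (Pool.Agent.TH447.KS.lt' P) x y -
        Pool.Agent.TH447.KS.cnt (Pool.Agent.TH447.KS.lt' P) y x) /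
        (2 * (Pool.Agent.TH447.KS.Lin (Pool.Agent.TH447.KS.lt' P)).card) := by
      rw [Pool.Agent.TH447.KS.prob_eq_cnt]
      field_simp
      linarith
    rw [e, abs_div, abs_of_pos (by positivity : (0 : ℝ) <
      2 * (Pool.Agent.TH447.KS.Lin (Pool.Agent.TH447.KS.lt' P)).card), div_le_iff₀ (by positivity)]
    refine h5.trans ?_
    have h6 : K * L ^ 7 / (A.card : ℝ) ^ (2 / 3 : ℝ) ≤
        max C K * L ^ 7 / (A.card : ℝ) ^ (2 / 3 : ℝ) := by
      apply div_le_div_of_nonneg_right _ (by positivity)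
      exact mul_le_mul_of_nonneg_right (le_max_right _ _) (by positivity)
    have h7 : 0 ≤ max C K * L ^ 7 / (A.card : ℝ) ^ (2 / 3 : ℝ) := by
      have : 0 < max C K := lt_of_lt_of_le hC (le_max_left _ _)
      positivity
    have h8 : K * L ^ 7 / (A.card : ℝ) ^ (2 / 3 : ℝ) *
        (Pool.Agent.TH447.KS.Lin (fun a b : P => a < b)).card ≤
        max C K * L ^ 7 / (A.card : ℝ) ^ (2 / 3 : ℝ) *
        (Pool.Agent.TH447.KS.Lin (fun a b : P => a < b)).card :=
      mul_le_mul_of_nonneg_right h6 hpos.le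
    refine h8.trans ?_
    have h9 : 0 ≤ max C K * L ^ 7 / (A.card : ℝ) ^ (2 / 3 : ℝ) *
        (Pool.Agent.TH447.KS.Lin (fun a b : P => a < b)).card := mul_nonneg h7 hpos.le
    have h10 : max C K * L ^ 7 / (A.card : ℝ) ^ (2 / 3 : ℝ) *
        (2 * (Pool.Agent.TH447.KS.Lin (Pool.Agent.TH447.KS.lt' P)).card) =
        2 * (max C K * L ^ 7 / (A.card : ℝ) ^ (2 / 3 : ℝ) *
        (Pool.Agent.TH447.KS.Lin (fun a b : P => a < b)).card) := by ring
    rw [h10]
    linarith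

end Pool.Agent.V5helper26.IR
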